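import Mathlib

/-!
# Countable dense sets in Cantor cubes of weight continuum, and many types of ultrafilters
-/

set_option autoImplicit false

noncomputable section

namespace Pool.Agent.Lib.MP_1fe139_gt

open Set Cardinal Filter

theorem mk_seq : #(ℕ → Bool) = 𝔠 := by
  simp [← Cardinal.two_power_aleph0]

/-- A countable family of points of the cube realizing every finite pattern. -/
theorem exists_dense {K : Type} (hK : #K ≤ 𝔠) :
    ∃ d : ℕ → K → Bool, ∀ (s : Finset K) (x : K → Bool), ∃ n, ∀ k ∈ s, d n k = x k := by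
  classical
  rw [← mk_seq] at hK
  obtain ⟨e⟩ := (Cardinal.le_def _ _).1 hK
  let cut : ℕ → K → Finset ℕ := fun n k => (Finset.range n).filter fun i => e k i = true
  obtain ⟨enum, henum⟩ := exists_surjective_nat (ℕ × Finset (Finset ℕ))
  refine ⟨fun n k => decide (cut (enum n).1 k ∈ (enum n).2), fun s x => ?_⟩
  have h1 : ∀ p : K × K, ∃ i, p.1 ≠ p.2 → e p.1 i ≠ e p.2 i := by
    intro p
    by_cases h : p.1 = p.2
    · exact ⟨0, fun h' => absurd h h'⟩
    · obtain ⟨i, hi⟩ := Function.ne_iff.1 (e.injective.ne h)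
      exact ⟨i, fun _ => hi⟩
  choose idx hidx using h1
  let N := (s ×ˢ s).sup idx + 1
  have hinj : ∀ k ∈ s, ∀ k' ∈ s, cut N k = cut N k' → k = k' := by
    intro k hk k' hk' h
    by_contra hne
    have h2 : idx (k, k') < N :=
      Nat.lt_succ_of_le (Finset.le_sup (f := idx) (Finset.mk_mem_product hk hk'))
    have h3 : idx (k, k') ∈ cut N k ↔ idx (k, k') ∈ cut N k' := by rw [h]
    simp only [cut, Finset.mem_filter, Finset.mem_range, h2, true_and] at h3
    exact hidx (k, k') hne (Bool.eq_iff_iff.2 h3)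
  obtain ⟨n, hn⟩ := henum (N, (s.filter fun k => x k = true).image (cut N))
  refine ⟨n, fun k hk => ?_⟩
  simp only [hn]
  rw [Bool.eq_iff_iff, decide_eq_true_iff, Finset.mem_image]
  constructor
  · rintro ⟨k', hk', h⟩
    rw [Finset.mem_filter] at hk'
    rw [← hinj k' hk'.1 k hk h]
    exact hk'.2
  · exact fun h => ⟨k, Finset.mem_filter.2 ⟨hk, h⟩, rfl⟩

/-- A dense sequence whose terms are distinguished by the reserved coordinates. -/
theorem exists_dense_sep {K : Type} (hK : #K ≤ 𝔠) :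
    ∃ q : ℕ → ℕ ⊕ K → Bool, (∀ (s : Finset (ℕ ⊕ K)) (x : ℕ ⊕ K → Bool), ∃ n, ∀ k ∈ s, q n k = x k) ∧
      ∀ n n', n ≠ n' → ∃ a, q n (Sum.inl a) ≠ q n' (Sum.inl a) := by
  classical
  have h1 : #(ℕ ⊕ K) ≤ 𝔠 := by
    simp only [mk_sum, mk_nat, lift_id]
    exact Cardinal.add_le_of_le aleph0_le_continuum aleph0_le_continuum hK
  obtain ⟨d, hd⟩ := exists_dense h1
  let q : ℕ → ℕ ⊕ K → Bool := fun n => Sum.elim
    (fun a => if a < n then d n.unpair.1 (Sum.inl a) else decide (a = n))
    fun k => d n.unpair.1 (Sum.inr k)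
  have hlt : ∀ n n', n < n' → q n (Sum.inl n') ≠ q n' (Sum.inl n') := by
    intro n n' h
    simp [q, h.not_gt, h.ne']
  refine ⟨q, fun s x => ?_, fun n n' h => ?_⟩
  · obtain ⟨a, ha⟩ := hd s x
    let N := s.sup (Sum.elim id fun _ => 0) + 1
    refine ⟨Nat.pair a N, ?_⟩
    rintro (m | k) hk
    · have h2 : m < Nat.pair a N := by
        refine lt_of_lt_of_le (Nat.lt_succ_of_le ?_) (Nat.right_le_pair a N)
        exact Finset.le_sup (f := Sum.elim id fun _ => 0) hk
      simp only [q, Sum.elim_inl, if_pos h2, Nat.unpair_pair]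
      exact ha _ hk
    · simp only [q, Sum.elim_inr, Nat.unpair_pair]
      exact ha _ hk
  · rcases lt_or_gt_of_ne h with h' | h'
    · exact ⟨n', hlt n n' h'⟩
    · exact ⟨n, (hlt n' n h').symm⟩

theorem two_pow_le_mk_ultrafilter : 2 ^ 𝔠 ≤ #(Ultrafilter ℕ) := by
  classical
  obtain ⟨d, hd⟩ := exists_dense (K := ℕ → Bool) mk_seq.le
  have h1 : ∀ x : (ℕ → Bool) → Bool, ∃ u : Ultrafilter ℕ, ∀ k, {n | d n k = x k} ∈ u := by
    intro x
    obtain ⟨u, hu⟩ := Ultrafilter.exists_ultrafilter_of_finite_inter_nonempty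
      (range fun k => {n | d n k = x k}) (by
        intro T hT
        have h2 : ∀ A : T, ∃ k, {n | d n k = x k} = A.1 := fun A => hT A.2
        choose f hf using h2
        obtain ⟨n, hn⟩ := hd (Finset.univ.image f) x
        refine ⟨n, fun A hA => ?_⟩
        have := hf ⟨A, hA⟩
        simp only at this
        rw [← this]
        exact hn _ (Finset.mem_image_of_mem f (Finset.mem_univ _)))
    exact ⟨u, fun k => hu ⟨k, rfl⟩⟩
  choose u hu using h1
  have hinj : Function.Injective u := by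
    intro x y h
    funext k
    have h2 := hu y k
    rw [← h] at h2
    obtain ⟨n, h3, h4⟩ := Ultrafilter.nonempty_of_mem (inter_mem (hu x k) h2)
    exact Eq.trans (Eq.symm h3) h4
  have := mk_le_of_injective hinj
  rwa [← power_def, mk_bool, mk_seq] at this

/-- Uncountably many free ultrafilters on the integers, no two of which are images of each
other. -/
theorem exists_types : ∃ p : (ℕ → Bool) → Ultrafilter ℕ, (∀ i n, p i ≠ pure n) ∧
    ∀ i j (g g' : ℕ → ℕ), (p i).map g = p j → (p j).map g' = p i → i = j := by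
  let U := {p : Ultrafilter ℕ // ∀ n, p ≠ pure n}
  have hU : 𝔠 < #U := by
    by_contra h
    have h1 : #(Ultrafilter ℕ) ≤ #(U ⊕ ℕ) := by
      refine mk_le_of_surjective (f := Sum.elim Subtype.val pure) fun p => ?_
      by_cases hp : ∀ n, p ≠ pure n
      · exact ⟨Sum.inl ⟨p, hp⟩, rfl⟩
      · push Not at hp
        obtain ⟨n, hn⟩ := hp
        exact ⟨Sum.inr n, hn.symm⟩
    have h2 : #(U ⊕ ℕ) ≤ 𝔠 := by
      simp only [mk_sum, mk_nat, lift_id]
      exact Cardinal.add_le_of_le aleph0_le_continuum (not_lt.1 h) aleph0_le_continuum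
    exact absurd ((cantor 𝔠).trans_le (two_pow_le_mk_ultrafilter.trans (h1.trans h2)))
      (lt_irrefl _)
  let R : Setoid U :=
    { r := fun p p' => (∃ g, p.1.map g = p'.1) ∧ ∃ g, p'.1.map g = p.1
      iseqv := ⟨fun p => ⟨⟨id, Ultrafilter.map_id _⟩, ⟨id, Ultrafilter.map_id _⟩⟩,
        fun h => ⟨h.2, h.1⟩, by
          rintro p p' p'' ⟨⟨g, hg⟩, g', hg'⟩ ⟨⟨f, hf⟩, f', hf'⟩
          exact ⟨⟨f ∘ g, by rw [← hf, ← hg, Ultrafilter.map_map]⟩,
            ⟨g' ∘ f', by rw [← hg', ← hf', Ultrafilter.map_map]⟩⟩⟩ }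
  have hcls : ∀ c : Quotient R, #(Quotient.mk R ⁻¹' {c}) ≤ 𝔠 := by
    intro c
    have h1 : ∀ p : Quotient.mk R ⁻¹' {c}, ∃ g, c.out.1.map g = p.1.1 := by
      intro p
      have h2 : Quotient.mk R p.1 = Quotient.mk R c.out := by
        rw [Quotient.out_eq]
        exact p.2
      exact (Quotient.exact h2).2
    choose g hg using h1
    have hinj : Function.Injective g := by
      intro p p' h
      exact Subtype.ext (Subtype.ext (by rw [← hg p, ← hg p', h]))
    have := mk_le_of_injective hinj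
    simpa using this
  have hQ : 𝔠 ≤ #(Quotient R) := by
    by_contra h
    have h1 := mk_le_mk_mul_of_mk_preimage_le (Quotient.mk R) hcls
    have h2 : #(Quotient R) * 𝔠 ≤ 𝔠 :=
      Cardinal.mul_le_of_le aleph0_le_continuum (not_le.1 h).le le_rfl
    exact absurd (hU.trans_le (h1.trans h2)) (lt_irrefl _)
  rw [← mk_seq] at hQ
  obtain ⟨e⟩ := (Cardinal.le_def _ _).1 hQ
  refine ⟨fun i => (e i).out.1, fun i => (e i).out.2, fun i j g g' h h' => e.injective ?_⟩
  rw [← Quotient.out_eq (e i), ← Quotient.out_eq (e j)]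
  exact Quotient.sound ⟨⟨g, h⟩, ⟨g', h'⟩⟩

end Pool.Agent.Lib.MP_1fe139_gt
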