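import Pool.Agent.Lib.MP_1fe139_gt.Row

/-!
# The space
-/

set_option autoImplicit false

noncomputable section

namespace Pool.Agent.Lib.MP_1fe139_gt

open Set Cardinal Filter Topology

/-- The coordinates of the cube: reserved ones, and (label, generator, code position, bit). -/
abbrev K : Type := ℕ ⊕ ((ℕ → Bool) × Set ℕ × (ℕ → Bool) × Bool)

theorem mk_K1 : #((ℕ → Bool) × Set ℕ × (ℕ → Bool) × Bool) ≤ 𝔠 := by
  rw [mk_prod, mk_prod, mk_prod, lift_id, lift_id, lift_id, lift_id, lift_id, mk_seq, mk_set,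
    mk_nat, two_power_aleph0, mk_bool]
  refine Cardinal.mul_le_of_le aleph0_le_continuum le_rfl
    (Cardinal.mul_le_of_le aleph0_le_continuum le_rfl
      (Cardinal.mul_le_of_le aleph0_le_continuum le_rfl ?_))
  exact (natCast_lt_aleph0 (n := 2)).le.trans aleph0_le_continuum

theorem mk_finset_K : #(Finset K) ≤ 𝔠 := by
  rw [mk_finset_of_infinite]
  simp only [mk_sum, mk_nat, lift_id]
  exact Cardinal.add_le_of_le aleph0_le_continuum aleph0_le_continuum mk_K1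

/-- All data of the construction. -/
structure Data (Λ D : Type) extends Row Λ D where
  q : ℕ → K → Bool
  dense : ∀ (s : Finset K) (x : K → Bool), ∃ n, ∀ k ∈ s, q n k = x k
  qsep : ∀ n n', n ≠ n' → ∃ a, q n (Sum.inl a) ≠ q n' (Sum.inl a)

variable {Λ D : Type} (R : Data Λ D)

namespace Data

/-- The coordinate `k` is flipped in the shadow of `y` in the copy `ξ`. -/
def Flip (ξ : Λ) (y : D) : K → Prop
  | Sum.inl _ => False
  | Sum.inr k => k.1 = R.lab y ∧ k.2.2.2 = R.code y k.2.2.1 ∧ ξ ∉ R.G y k.2.1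

open Classical in
/-- The shadow of the point `(m, y)` in the copy `ξ`. -/
def sh (ξ : Λ) (m : ℕ) (y : D) (k : K) : Bool := if R.Flip ξ y k then !R.q m k else R.q m k

theorem sh_eq_iff {ξ : Λ} {m : ℕ} {y : D} {k : K} : R.sh ξ m y k = R.q m k ↔ ¬ R.Flip ξ y k := by
  unfold sh
  split_ifs with h <;> simp [h]

/-- Basic neighbourhoods. -/
def N : (Λ × ℕ) ⊕ (ℕ × D) → Finset K → Set ((Λ × ℕ) ⊕ (ℕ × D))
  | Sum.inl p, s => {x | ∃ m, x = Sum.inl (p.1, m) ∧ ∀ k ∈ s, R.q m k = R.q p.2 k}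
  | Sum.inr p, s => {x | x = Sum.inr p ∨
      ∃ ξ m, x = Sum.inl (ξ, m) ∧ ∀ k ∈ s, R.q m k = R.sh ξ p.1 p.2 k}

theorem mem_N_self (x : (Λ × ℕ) ⊕ (ℕ × D)) (s : Finset K) : x ∈ R.N x s := by
  rcases x with p | p
  · exact ⟨p.2, rfl, fun _ _ => rfl⟩
  · exact Or.inl rfl

theorem N_anti (x : (Λ × ℕ) ⊕ (ℕ × D)) {s s' : Finset K} (h : s ⊆ s') : R.N x s' ⊆ R.N x s := by
  rcases x with p | p
  · rintro _ ⟨m, rfl, hm⟩
    exact ⟨m, rfl, fun k hk => hm k (h hk)⟩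
  · rintro _ (rfl | ⟨ξ, m, rfl, hm⟩)
    · exact Or.inl rfl
    · exact Or.inr ⟨ξ, m, rfl, fun k hk => hm k (h hk)⟩

theorem N_trans {x x' : (Λ × ℕ) ⊕ (ℕ × D)} {s : Finset K} (h : x' ∈ R.N x s) :
    R.N x' s ⊆ R.N x s := by
  rcases x with p | p
  · obtain ⟨m, rfl, hm⟩ := h
    rintro _ ⟨m', rfl, hm'⟩
    exact ⟨m', rfl, fun k hk => (hm' k hk).trans (hm k hk)⟩
  · rcases h with rfl | ⟨ξ, m, rfl, hm⟩
    · exact subset_rfl
    · rintro _ ⟨m', rfl, hm'⟩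
      exact Or.inr ⟨ξ, m', rfl, fun k hk => (hm' k hk).trans (hm k hk)⟩

/-- The topology. -/
@[reducible] def top : TopologicalSpace ((Λ × ℕ) ⊕ (ℕ × D)) where
  IsOpen U := ∀ x ∈ U, ∃ s, R.N x s ⊆ U
  isOpen_univ x _ := ⟨∅, subset_univ _⟩
  isOpen_inter U V hU hV x hx := by
    classical
    obtain ⟨s, hs⟩ := hU x hx.1
    obtain ⟨s', hs'⟩ := hV x hx.2
    exact ⟨s ∪ s', subset_inter ((R.N_anti x Finset.subset_union_left).trans hs)
      ((R.N_anti x Finset.subset_union_right).trans hs')⟩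
  isOpen_sUnion 𝒰 h x hx := by
    obtain ⟨U, hU, hxU⟩ := hx
    obtain ⟨s, hs⟩ := h U hU x hxU
    exact ⟨s, hs.trans (subset_sUnion_of_mem hU)⟩

theorem isOpen_N (x : (Λ × ℕ) ⊕ (ℕ × D)) (s : Finset K) : IsOpen[R.top] (R.N x s) :=
  fun _ hx => ⟨s, R.N_trans hx⟩

theorem exists_N {U : Set ((Λ × ℕ) ⊕ (ℕ × D))} (hU : IsOpen[R.top] U) {x : (Λ × ℕ) ⊕ (ℕ × D)}
    (hx : x ∈ U) : ∃ s, R.N x s ⊆ U := hU x hx

theorem mem_cl {A : Set ((Λ × ℕ) ⊕ (ℕ × D))} {x : (Λ × ℕ) ⊕ (ℕ × D)}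
    (h : ∀ s, (R.N x s ∩ A).Nonempty) : x ∈ closure[R.top] A := by
  let _ := R.top
  rw [mem_closure_iff]
  intro U hU hx
  obtain ⟨s, hs⟩ := R.exists_N hU hx
  exact (h s).mono (inter_subset_inter_left _ hs)

theorem sep_lr (p : Λ × ℕ) (p' : ℕ × D) :
    ∃ s, Disjoint (R.N (Sum.inl p) s) (R.N (Sum.inr p') s) := by
  have h1 : ∃ k, R.sh p.1 p'.1 p'.2 k ≠ R.q p.2 k := by
    by_cases h : p'.1 = p.2
    · obtain ⟨A, hA⟩ := R.free p'.2 p.1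
      refine ⟨Sum.inr (R.lab p'.2, A, fun _ => true, R.code p'.2 fun _ => true), ?_⟩
      rw [← h, Ne, sh_eq_iff, not_not]
      exact ⟨rfl, rfl, hA⟩
    · obtain ⟨a, ha⟩ := R.qsep _ _ h
      refine ⟨Sum.inl a, ?_⟩
      rwa [R.sh_eq_iff.2 id]
  obtain ⟨k, hk⟩ := h1
  refine ⟨{k}, disjoint_left.2 ?_⟩
  rintro _ ⟨m, rfl, hm⟩ (h | ⟨ξ, m', h, hm'⟩)
  · exact Sum.inl_ne_inr h
  · obtain ⟨rfl, rfl⟩ := Prod.mk.inj (Sum.inl.inj h)
    exact hk ((hm' k (Finset.mem_singleton_self k)).symm.trans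
      (hm k (Finset.mem_singleton_self k)))

theorem sep_rr {p p' : ℕ × D} (h : p ≠ p') :
    ∃ s, Disjoint (R.N (Sum.inr p) s) (R.N (Sum.inr p') s) := by
  classical
  have h1 : ∃ s : Finset K, ∀ ξ, ¬ ∀ k ∈ s, R.sh ξ p.1 p.2 k = R.sh ξ p'.1 p'.2 k := by
    by_cases h1 : p.1 = p'.1
    · have h2 : p.2 ≠ p'.2 := fun h2 => h (Prod.ext h1 h2)
      obtain ⟨A, A', hA⟩ := R.sep _ _ h2
      obtain ⟨i, hi⟩ := Function.ne_iff.1 (R.code_inj.ne h2)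
      refine ⟨{Sum.inr (R.lab p.2, A, i, R.code p.2 i), Sum.inr (R.lab p'.2, A', i, R.code p'.2 i)},
        fun ξ hξ => ?_⟩
      have h3 := hξ _ (Finset.mem_insert_self _ _)
      have h4 := hξ _ (Finset.mem_insert_of_mem (Finset.mem_singleton_self _))
      have h5 : ¬ R.Flip ξ p'.2 (Sum.inr (R.lab p.2, A, i, R.code p.2 i)) := fun h' => hi h'.2.1
      have h6 : ¬ R.Flip ξ p.2 (Sum.inr (R.lab p'.2, A', i, R.code p'.2 i)) :=
        fun h' => hi h'.2.1.symm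
      rw [R.sh_eq_iff.2 h5, ← h1, sh_eq_iff] at h3
      rw [R.sh_eq_iff.2 h6, h1, eq_comm, sh_eq_iff] at h4
      exact disjoint_left.1 hA (by_contra fun h' => h3 ⟨rfl, rfl, h'⟩)
        (by_contra fun h' => h4 ⟨rfl, rfl, h'⟩)
    · obtain ⟨a, ha⟩ := R.qsep _ _ h1
      refine ⟨{Sum.inl a}, fun ξ hξ => ha ?_⟩
      have h3 := hξ _ (Finset.mem_singleton_self _)
      rwa [R.sh_eq_iff.2 id, R.sh_eq_iff.2 id] at h3
  obtain ⟨s, hs⟩ := h1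
  refine ⟨s, disjoint_left.2 ?_⟩
  rintro _ (rfl | ⟨ξ, m, rfl, hm⟩) (h' | ⟨ξ', m', h', hm'⟩)
  · exact h (Sum.inr.inj h')
  · exact Sum.inr_ne_inl h'
  · exact Sum.inl_ne_inr h'
  · obtain ⟨rfl, rfl⟩ := Prod.mk.inj (Sum.inl.inj h')
    exact hs ξ fun k hk => (hm k hk).symm.trans (hm' k hk)

theorem sep_ll {p p' : Λ × ℕ} (h : p ≠ p') :
    ∃ s, Disjoint (R.N (Sum.inl p) s) (R.N (Sum.inl p') s) := by
  by_cases h1 : p.1 = p'.1
  · obtain ⟨a, ha⟩ := R.qsep _ _ fun h2 => h (Prod.ext h1 h2)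
    refine ⟨{Sum.inl a}, disjoint_left.2 ?_⟩
    rintro _ ⟨m, rfl, hm⟩ ⟨m', h', hm'⟩
    obtain ⟨-, rfl⟩ := Prod.mk.inj (Sum.inl.inj h')
    exact ha ((hm _ (Finset.mem_singleton_self _)).symm.trans
      (hm' _ (Finset.mem_singleton_self _)))
  · refine ⟨∅, disjoint_left.2 ?_⟩
    rintro _ ⟨m, rfl, -⟩ ⟨m', h', -⟩
    exact h1 (Prod.mk.inj (Sum.inl.inj h')).1

theorem t2 : @T2Space _ R.top := by
  let _ := R.top
  refine ⟨fun x x' h => ?_⟩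
  have h1 : ∃ s, Disjoint (R.N x s) (R.N x' s) := by
    rcases x with p | p <;> rcases x' with p' | p'
    · exact R.sep_ll fun e => h (congrArg _ e)
    · exact R.sep_lr p p'
    · obtain ⟨s, hs⟩ := R.sep_lr p' p
      exact ⟨s, hs.symm⟩
    · exact R.sep_rr fun e => h (congrArg _ e)
  obtain ⟨s, hs⟩ := h1
  exact ⟨_, _, R.isOpen_N x s, R.isOpen_N x' s, R.mem_N_self x s, R.mem_N_self x' s, hs⟩

/-- An infinite row accumulates at points of every label. -/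
theorem exists_mem_cl {F : Set ((Λ × ℕ) ⊕ (ℕ × D))} {m : ℕ}
    (h : {ξ | Sum.inl (ξ, m) ∈ F}.Infinite) (l : ℕ → Bool) :
    ∃ y, R.lab y = l ∧ Sum.inr (m, y) ∈ closure[R.top] F := by
  classical
  obtain ⟨y, hy, h1⟩ := R.acc _ h l
  refine ⟨y, hy, R.mem_cl fun s => ?_⟩
  obtain ⟨ξ, hξ, h2⟩ := h1 (s.image (Sum.elim (fun _ => ∅) fun k => k.2.1))
  refine ⟨Sum.inl (ξ, m), Or.inr ⟨ξ, m, rfl, fun k hk => (R.sh_eq_iff.2 ?_).symm⟩, hξ⟩
  rcases k with a | k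
  · exact id
  · exact fun h3 => h3.2.2 (h2 _ (Finset.mem_image_of_mem _ hk))

/-- Open sets around infinitely many points with distinct labels have the whole row in their
closure. -/
theorem row_subset_cl {m : ℕ} {y : ℕ → D} (hy : Function.Injective fun j => R.lab (y j))
    {U : ℕ → Set ((Λ × ℕ) ⊕ (ℕ × D))} (hU : ∀ j, IsOpen[R.top] (U j))
    (hm : ∀ j, Sum.inr (m, y j) ∈ U j) (ξ : Λ) :
    Sum.inl (ξ, m) ∈ closure[R.top] (⋃ j, U j) := by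
  classical
  refine R.mem_cl fun s => ?_
  have h1 : ∃ j, R.lab (y j) ∉ s.image (Sum.elim (fun _ _ => true) fun k => k.1) := by
    by_contra h
    push Not at h
    exact infinite_of_injective_forall_mem hy h (Finset.finite_toSet _)
  obtain ⟨j, hj⟩ := h1
  obtain ⟨s', hs'⟩ := R.exists_N (hU j) (hm j)
  obtain ⟨n, hn⟩ := R.dense (s ∪ s') (R.sh ξ m (y j))
  refine ⟨Sum.inl (ξ, n), ⟨n, rfl, fun k hk => ?_⟩, mem_iUnion.2 ⟨j, hs' (Or.inr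
    ⟨ξ, n, rfl, fun k hk => hn k (Finset.mem_union_right _ hk)⟩)⟩⟩
  rw [hn k (Finset.mem_union_left _ hk), sh_eq_iff]
  rcases k with a | k
  · exact id
  · exact fun h => hj (h.1 ▸ Finset.mem_image_of_mem _ hk)

theorem sql (ξ₀ : Λ) (F : Set ((Λ × ℕ) ⊕ (ℕ × D))) (hF : IsClosed[R.top] F)
    (U : ℕ → Set (Set ((Λ × ℕ) ⊕ (ℕ × D)))) (hU : ∀ n, ∀ u ∈ U n, IsOpen[R.top] u)
    (hc : F ⊆ ⋃₀ ⋃ n, U n) :
    ∃ V : ℕ → Set (Set ((Λ × ℕ) ⊕ (ℕ × D))), (∀ n, V n ⊆ U n ∧ (V n).Countable) ∧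
      F ⊆ ⋃ n, closure[R.top] (⋃₀ V n) := by
  classical
  let _ := R.top
  have hc' : ∀ x ∈ F, ∃ n, ∃ u ∈ U n, x ∈ u := by
    intro x hx
    obtain ⟨u, hu, hxu⟩ := hc hx
    obtain ⟨n, hn⟩ := mem_iUnion.1 hu
    exact ⟨n, u, hn, hxu⟩
  -- countable sets are covered by countable subfamilies
  have hcount : ∀ C : Set ((Λ × ℕ) ⊕ (ℕ × D)), C.Countable → ∀ n,
      ∃ V ⊆ U n, V.Countable ∧ C ∩ ⋃₀ U n ⊆ ⋃₀ V := by
    intro C hC n
    have h1 : ∀ x : (C ∩ ⋃₀ U n : Set _), ∃ u ∈ U n, x.1 ∈ u := fun x => x.2.2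
    choose f hf hf' using h1
    have := (hC.mono (inter_subset_left (t := ⋃₀ U n))).to_subtype
    exact ⟨range f, range_subset_iff.2 hf, countable_range f,
      fun x hx => ⟨f ⟨x, hx⟩, mem_range_self _, hf' _⟩⟩
  -- the rows
  have hrow : ∀ m, ∃ V : ℕ → Set (Set ((Λ × ℕ) ⊕ (ℕ × D))), (∀ n, V n ⊆ U n ∧ (V n).Countable) ∧
      ∀ ξ, Sum.inl (ξ, m) ∈ F → ∃ n, Sum.inl (ξ, m) ∈ closure (⋃₀ V n) := by
    intro m
    by_cases h : {ξ | Sum.inl (ξ, m) ∈ F}.Infinite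
    · choose y hy hy' using R.exists_mem_cl h
      rw [hF.closure_eq] at hy'
      choose n u hu hu' using fun l => hc' _ (hy' l)
      obtain ⟨n₀, hn₀⟩ : ∃ n₀, (n ⁻¹' {n₀}).Infinite := by
        by_contra h1
        push Not at h1
        have h2 : (univ : Set (ℕ → Bool)).Countable := by
          refine (countable_iUnion fun n₀ => (h1 n₀).countable).mono fun l _ => ?_
          exact mem_iUnion.2 ⟨n l, rfl⟩
        rw [← le_aleph0_iff_set_countable, mk_univ, mk_seq] at h2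
        exact absurd aleph0_lt_continuum (not_lt.2 h2)
      let e := hn₀.natEmbedding
      refine ⟨fun n' => if n' = n₀ then range fun j => u (e j).1 else ∅, fun n' => ?_,
        fun ξ _ => ⟨n₀, ?_⟩⟩
      · by_cases h1 : n' = n₀
        · simp only [if_pos h1]
          refine ⟨range_subset_iff.2 fun j => ?_, countable_range _⟩
          have h2 : n (e j).1 = n₀ := (e j).2
          have h3 := hu (e j).1
          rw [h2] at h3
          rw [h1]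
          exact h3
        · simp only [if_neg h1]
          exact ⟨empty_subset _, countable_empty⟩
      · simp only [if_true, sUnion_range]
        refine R.row_subset_cl (y := fun j => y (e j).1) (fun j k h1 => ?_)
          (fun j => hU _ _ (hu _)) (fun j => hu' _) ξ
        simp only [hy] at h1
        exact e.injective (Subtype.ext h1)
    · choose V hV hV' hV'' using hcount _
        ((not_infinite.1 h).image fun ξ => (Sum.inl (ξ, m) : (Λ × ℕ) ⊕ (ℕ × D))).countable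
      refine ⟨V, fun n => ⟨hV n, hV' n⟩, fun ξ hξ => ?_⟩
      obtain ⟨n, u, hu, hu'⟩ := hc' _ hξ
      exact ⟨n, subset_closure (hV'' n ⟨⟨ξ, hξ, rfl⟩, u, hu, hu'⟩)⟩
  choose V hV hV' using hrow
  choose W hW hW' hW'' using hcount _
    (countable_range fun m : ℕ => (Sum.inl (ξ₀, m) : (Λ × ℕ) ⊕ (ℕ × D)))
  refine ⟨fun n => W n ∪ ⋃ m, V m n, fun n => ⟨union_subset (hW n)
    (iUnion_subset fun m => (hV m n).1), (hW' n).union (countable_iUnion fun m => (hV m n).2)⟩, ?_⟩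
  rintro (⟨ξ, m⟩ | ⟨m, y⟩) hx
  · obtain ⟨n, hn⟩ := hV' m ξ hx
    refine mem_iUnion.2 ⟨n, closure_mono (sUnion_mono ?_) hn⟩
    exact subset_union_of_subset_right (subset_iUnion (fun m => V m n) m) _
  · obtain ⟨n, u, hu, hu'⟩ := hc' _ hx
    refine mem_iUnion.2 ⟨n, closure_mono (sUnion_mono subset_union_left) (R.mem_cl fun s => ?_)⟩
    obtain ⟨s', hs'⟩ := R.exists_N (hU n u hu) hu'
    obtain ⟨a, ha⟩ := R.dense (s ∪ s') (R.sh ξ₀ m y)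
    exact ⟨Sum.inl (ξ₀, a), Or.inr ⟨ξ₀, a, rfl, fun k hk => ha k (Finset.mem_union_left _ hk)⟩,
      hW'' n ⟨⟨a, rfl⟩, u, hu,
        hs' (Or.inr ⟨ξ₀, a, rfl, fun k hk => ha k (Finset.mem_union_right _ hk)⟩)⟩⟩

end Data

theorem exists_space : ∃ (X : Type) (_ : TopologicalSpace X), T2Space X ∧
    (∀ F : Set X, IsClosed F → ∀ U : ℕ → Set (Set X), (∀ n, ∀ u ∈ U n, IsOpen u) →
      F ⊆ ⋃₀ (⋃ n, U n) → ∃ V : ℕ → Set (Set X), (∀ n, V n ⊆ U n ∧ (V n).Countable) ∧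
        F ⊆ ⋃ n, closure (⋃₀ V n)) ∧
    (∀ x : X, ∃ B : Set (Set X), (∀ b ∈ B, IsOpen b ∧ x ∈ b) ∧
      (∀ u ∈ 𝓝 x, ∃ b ∈ B, b ⊆ u) ∧ #B ≤ 𝔠) ∧ 2 ^ 𝔠 < #X := by
  obtain ⟨Λ, D, hΛ, ⟨R₀⟩⟩ := exists_row
  obtain ⟨q, hq, hq'⟩ := exists_dense_sep mk_K1
  let R : Data Λ D := ⟨R₀, q, hq, hq'⟩
  obtain ⟨ξ₀⟩ : Nonempty Λ := mk_ne_zero_iff.1 (hΛ.trans_le' zero_le).ne'
  refine ⟨(Λ × ℕ) ⊕ (ℕ × D), R.top, R.t2, R.sql ξ₀, fun x => ⟨range (R.N x), ?_, fun u hu => ?_,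
    mk_range_le.trans mk_finset_K⟩, hΛ.trans_le (mk_le_of_injective
      (f := fun ξ => Sum.inl (ξ, 0)) fun ξ ξ' h => (Prod.mk.inj (Sum.inl.inj h)).1)⟩
  · rintro _ ⟨s, rfl⟩
    exact ⟨R.isOpen_N x s, R.mem_N_self x s⟩
  · let _ := R.top
    obtain ⟨v, hv, hv', hx⟩ := mem_nhds_iff.1 hu
    obtain ⟨s, hs⟩ := R.exists_N hv' hx
    exact ⟨_, ⟨s, rfl⟩, hs.trans hv⟩

end Pool.Agent.Lib.MP_1fe139_gt
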