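import Mathlib
import Pool.Agent.Lib.MP_1fe139_gt.Space

set_option autoImplicit false

noncomputable section

namespace Pool.Agent.Lib.MP_1fe139_gt.Old

open Set Cardinal Topology

/-- `B` is a local base at `x`: a family of open sets containing `x` such that every
neighbourhood of `x` contains a member of `B`. -/
def IsLocalBase {X : Type} [TopologicalSpace X] (x : X) (B : Set (Set X)) : Prop :=
  (∀ b ∈ B, IsOpen b ∧ x ∈ b) ∧ ∀ u ∈ 𝓝 x, ∃ b ∈ B, b ⊆ u

/-- The least cardinality of a local base at `x`. -/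
def charAt {X : Type} [TopologicalSpace X] (x : X) : Cardinal :=
  sInf {c : Cardinal | ∃ B : Set (Set X), IsLocalBase x B ∧ #B = c}

/-- The character: `ℵ₀` plus the supremum of the local characters. -/
def character (X : Type) [TopologicalSpace X] : Cardinal := ℵ₀ + ⨆ x : X, charAt x

/-- Strictly quasi-Lindelöf spaces. -/
def StrictlyQuasiLindelof (X : Type) [TopologicalSpace X] : Prop :=
  ∀ F : Set X, IsClosed F → ∀ U : ℕ → Set (Set X), (∀ n, ∀ u ∈ U n, IsOpen u) →
    F ⊆ ⋃₀ (⋃ n, U n) → ∃ V : ℕ → Set (Set X), (∀ n, V n ⊆ U n ∧ (V n).Countable) ∧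
      F ⊆ ⋃ n, closure (⋃₀ V n)

theorem result : ∃ (X : Type) (_ : TopologicalSpace X), T2Space X ∧ StrictlyQuasiLindelof X ∧
    character X ≤ 𝔠 ∧ 2 ^ 𝔠 < #X ∧ 2 ^ character X < #X := by
  obtain ⟨X, _, h1, h2, h3, h4⟩ := Pool.Agent.Lib.MP_1fe139_gt.exists_space
  have h5 : character X ≤ 𝔠 := by
    refine Cardinal.add_le_of_le aleph0_le_continuum aleph0_le_continuum (ciSup_le' fun x => ?_)
    obtain ⟨B, hB, hB', hc⟩ := h3 x
    have h6 : #B ∈ {c : Cardinal | ∃ B : Set (Set X), IsLocalBase x B ∧ #B = c} :=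
      ⟨B, ⟨hB, hB'⟩, rfl⟩
    exact (csInf_le' h6).trans hc
  exact ⟨X, inferInstance, h1, h2, h5, h4,
    (power_le_power_left two_ne_zero h5).trans_lt h4⟩

end Pool.Agent.Lib.MP_1fe139_gt.Old
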