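import Pool.Agent.Lib.MP_1fe139_gt.Dense

/-!
# A small separated family of filters on a large set catching every infinite subset
-/

set_option autoImplicit false

noncomputable section

namespace Pool.Agent.Lib.MP_1fe139_gt

open Set Cardinal Filter

/-- A well-order with small initial segments, many subsets and uncountable cofinality. -/
theorem exists_order : ∃ (ι : Type) (_ : LinearOrder ι) (_ : WellFoundedLT ι),
    #ι ≤ 2 ^ 𝔠 ∧ 2 ^ 𝔠 < #(ι → Bool) ∧ ∀ b : ι, #(Iio b → Bool) ≤ 2 ^ 𝔠 := by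
  let M : Set Cardinal.{0} := {μ | (2 ^ 𝔠 : Cardinal.{0}) < (2 : Cardinal.{0}) ^ μ}
  have h0 : (2 ^ 𝔠 : Cardinal.{0}) ∈ M := cantor _
  refine ⟨(sInf M).ord.ToType, inferInstance, inferInstance, ?_, ?_, fun b => ?_⟩
  · rw [mk_ord_toType]
    exact csInf_le' h0
  · rw [← power_def, mk_bool, mk_ord_toType]
    exact csInf_mem ⟨_, h0⟩
  · rw [← power_def, mk_bool]
    have h1 : #(Iio b) < sInf M := by simpa using mk_Iio_lt b
    exact not_lt.1 (notMem_of_lt_csInf' (s := M) h1)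

section Levels

variable {ι : Type} [LinearOrder ι]

/-- Restriction below `b`. -/
def res (b : ι) (ξ : ι → Bool) : ι → Bool := fun i => if i < b then ξ i else false

theorem res_res {b b' : ι} (h : b ≤ b') (ξ : ι → Bool) : res b (res b' ξ) = res b ξ := by
  funext i
  by_cases hi : i < b
  · simp [res, hi, hi.trans_le h]
  · simp [res, hi]

theorem mk_range_res (b : ι) : #(range (res b)) ≤ #(Iio b → Bool) := by
  refine mk_le_of_injective (f := fun r i => r.1 i.1) ?_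
  rintro ⟨_, ξ, rfl⟩ ⟨_, ξ', rfl⟩ h
  refine Subtype.ext (funext fun i => ?_)
  by_cases hi : i < b
  · exact congrFun h ⟨i, hi⟩
  · simp [res, hi]

theorem two_pow_pow_aleph0 : (2 ^ 𝔠 : Cardinal.{0}) ^ (ℵ₀ : Cardinal.{0}) = 2 ^ 𝔠 := by
  rw [← power_mul, continuum_mul_aleph0]

theorem aleph0_le_two_pow : ℵ₀ ≤ (2 ^ 𝔠 : Cardinal.{0}) :=
  aleph0_le_continuum.trans (cantor _).le

theorem mk_levels (h1 : #ι ≤ 2 ^ 𝔠) (h3 : ∀ b : ι, #(Iio b → Bool) ≤ 2 ^ 𝔠) :
    #(⋃ b : ι, range (res b)) ≤ 2 ^ 𝔠 := by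
  refine mk_iUnion_le_sum_mk.trans ?_
  refine (sum_le_sum _ (fun _ => 2 ^ 𝔠) fun b => (mk_range_res b).trans (h3 b)).trans ?_
  rw [sum_const']
  exact Cardinal.mul_le_of_le aleph0_le_two_pow h1 le_rfl

theorem exists_bound (h1 : #ι ≤ 2 ^ 𝔠) (h2 : 2 ^ 𝔠 < #(ι → Bool))
    (h3 : ∀ b : ι, #(Iio b → Bool) ≤ 2 ^ 𝔠) (f : ℕ → ι) : ∃ b, ∀ n, f n < b := by
  by_contra h
  push Not at h
  have h4 : #(ι → Bool) ≤ #(ℕ → (⋃ b : ι, range (res b)) × Bool) := by
    refine mk_le_of_injective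
      (f := fun ξ n => (⟨res (f n) ξ, mem_iUnion.2 ⟨f n, ξ, rfl⟩⟩, ξ (f n))) fun ξ ξ' e => ?_
    funext i
    obtain ⟨n, hn⟩ := h i
    have e1 := congrFun e n
    rcases hn.lt_or_eq with hn | rfl
    · have e2 := congrFun (congrArg Subtype.val (congrArg Prod.fst e1)) i
      simpa [res, hn] using e2
    · exact congrArg Prod.snd e1
  have h5 : #((⋃ b : ι, range (res b)) × Bool) ≤ 2 ^ 𝔠 := by
    rw [mk_prod, lift_id, lift_id, mk_bool]
    exact Cardinal.mul_le_of_le aleph0_le_two_pow (mk_levels h1 h3)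
      ((natCast_lt_aleph0 (n := 2)).le.trans aleph0_le_two_pow)
  rw [← power_def _ ℕ, mk_nat] at h4
  have h6 := h4.trans (power_le_power_right h5)
  rw [two_pow_pow_aleph0] at h6
  exact absurd h2 (not_lt.2 h6)

theorem exists_infinite_level (h1 : #ι ≤ 2 ^ 𝔠) (h2 : 2 ^ 𝔠 < #(ι → Bool))
    (h3 : ∀ b : ι, #(Iio b → Bool) ≤ 2 ^ 𝔠) {S : Set (ι → Bool)} (hS : S.Infinite) :
    ∃ b, (res b '' S).Infinite := by
  let ξ := hS.natEmbedding
  have h01 : ∃ i, (ξ 0).1 i ≠ (ξ 1).1 i :=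
    Function.ne_iff.1 fun h => absurd (ξ.injective (Subtype.ext h)) (by decide)
  have h4 : ∀ n : ℕ, ∃ i, n.unpair.1 ≠ n.unpair.2 → (ξ n.unpair.1).1 i ≠ (ξ n.unpair.2).1 i := by
    intro n
    by_cases h : n.unpair.1 = n.unpair.2
    · exact ⟨h01.choose, fun h' => absurd h h'⟩
    · obtain ⟨i, hi⟩ := Function.ne_iff.1 fun h' : (ξ n.unpair.1).1 = (ξ n.unpair.2).1 =>
        h (ξ.injective (Subtype.ext h'))
      exact ⟨i, fun _ => hi⟩
  choose f hf using h4
  obtain ⟨b, hb⟩ := exists_bound h1 h2 h3 f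
  refine ⟨b, infinite_of_injective_forall_mem (f := fun j => res b (ξ j).1) (fun j k e => ?_)
    fun j => ⟨_, (ξ j).2, rfl⟩⟩
  by_contra hne
  have h5 := hf (Nat.pair j k)
  rw [Nat.unpair_pair] at h5
  have h6 := congrFun e (f (Nat.pair j k))
  simp only [res, if_pos (hb _)] at h6
  exact h5 hne h6

end Levels

/-- The combinatorial data: filters on `Λ` indexed by `D`, each given by the sets `G y A`. -/
structure Row (Λ D : Type) where
  lab : D → ℕ → Bool
  G : D → Set ℕ → Set Λ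
  code : D → (ℕ → Bool) → Bool
  code_inj : Function.Injective code
  sep : ∀ y y', y ≠ y' → ∃ A A', Disjoint (G y A) (G y' A')
  free : ∀ y ξ, ∃ A, ξ ∉ G y A
  acc : ∀ S : Set Λ, S.Infinite → ∀ l, ∃ y, lab y = l ∧
    ∀ T : Finset (Set ℕ), ∃ ξ ∈ S, ∀ A ∈ T, ξ ∈ G y A

theorem exists_row : ∃ Λ D : Type, 2 ^ 𝔠 < #Λ ∧ Nonempty (Row Λ D) := by
  classical
  obtain ⟨ι, _, _, h1, h2, h3⟩ := exists_order
  obtain ⟨p, hp, hpp⟩ := exists_types
  let D := {z : ι × Ultrafilter (ι → Bool) //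
    (∃ lt : (ℕ → Bool) × (ℕ → ι → Bool), Function.Injective lt.2 ∧
      (∀ j, lt.2 j ∈ range (res z.1)) ∧ (p lt.1).map lt.2 = z.2) ∧
    ∀ b' < z.1, ∃ r, z.2.map (res b') = pure r}
  have hD : ∀ y : D, ∃ lt : (ℕ → Bool) × (ℕ → ι → Bool), Function.Injective lt.2 ∧
      (∀ j, lt.2 j ∈ range (res y.1.1)) ∧ (p lt.1).map lt.2 = y.1.2 := fun y => y.2.1
  choose lt hinj hran hmap using hD
  have hcard : #D ≤ #((ℕ → Bool) → Bool) := by
    have h4 : #D ≤ #(ι × (ℕ → Bool) × (ℕ → ⋃ b : ι, range (res b))) := by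
      refine mk_le_of_injective (f := fun y => (y.1.1, (lt y).1,
        fun j => ⟨(lt y).2 j, mem_iUnion.2 ⟨y.1.1, hran y j⟩⟩)) fun y y' e => ?_
      simp only [Prod.mk.injEq] at e
      have e3 : (lt y).2 = (lt y').2 := funext fun j => congrArg Subtype.val (congrFun e.2.2 j)
      refine Subtype.ext (Prod.ext e.1 ?_)
      rw [← hmap y, ← hmap y', e.2.1, e3]
    rw [← power_def, mk_bool, mk_seq]
    refine h4.trans ?_
    rw [mk_prod, mk_prod, lift_id, lift_id, lift_id, lift_id, mk_seq, ← power_def, mk_nat]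
    refine Cardinal.mul_le_of_le aleph0_le_two_pow h1
      (Cardinal.mul_le_of_le aleph0_le_two_pow (cantor _).le ?_)
    exact (power_le_power_right (mk_levels h1 h3)).trans two_pow_pow_aleph0.le
  obtain ⟨code⟩ := (Cardinal.le_def _ _).1 hcard
  let G' : D → Set ℕ → Set (ι → Bool) := fun y A =>
    if A ∈ p (lt y).1 then (lt y).2 '' A else univ
  have hG1 : ∀ y A, G' y A ∈ y.1.2 := by
    intro y A
    by_cases h : A ∈ p (lt y).1
    · simp only [G', if_pos h]
      rw [← hmap y, Ultrafilter.mem_map]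
      exact mem_of_superset h (subset_preimage_image _ _)
    · simp only [G', if_neg h]
      exact univ_mem
  have hG2 : ∀ (y : D) F, F ∈ y.1.2 → ∃ A, G' y A ⊆ F := by
    intro y F hF
    rw [← hmap y, Ultrafilter.mem_map] at hF
    refine ⟨(lt y).2 ⁻¹' F, ?_⟩
    simp only [G', if_pos hF]
    exact image_preimage_subset _ _
  have hfree : ∀ (y : D) r, {r}ᶜ ∈ y.1.2 := by
    intro y r
    rw [Ultrafilter.compl_mem_iff_notMem, ← hmap y, Ultrafilter.mem_map]
    intro h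
    obtain ⟨n, -, hn⟩ := Ultrafilter.eq_pure_of_finite_mem
      ((finite_singleton r).preimage (hinj y).injOn) h
    exact hp _ n hn
  have hlt : ∀ y y' : D, y.1.1 < y'.1.1 →
      ∃ A A', Disjoint (res y.1.1 ⁻¹' G' y A) (res y'.1.1 ⁻¹' G' y' A') := by
    intro y y' h
    obtain ⟨r, hr⟩ := y'.2.2 _ h
    have h4 : res y.1.1 ⁻¹' {r} ∈ y'.1.2 := by
      rw [← Ultrafilter.mem_map, hr]
      exact rfl
    obtain ⟨A, hA⟩ := hG2 y _ (hfree y r)
    obtain ⟨A', hA'⟩ := hG2 y' _ h4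
    refine ⟨A, A', disjoint_left.2 fun ξ h5 h6 => hA h5 ?_⟩
    have h7 := hA' h6
    rwa [mem_preimage, res_res h.le] at h7
  refine ⟨ι → Bool, D, h2, ⟨⟨fun y => (lt y).1, fun y A => res y.1.1 ⁻¹' G' y A, code,
    code.injective, fun y y' hne => ?_, fun y ξ => ?_, fun S hS l => ?_⟩⟩⟩
  · rcases lt_trichotomy y.1.1 y'.1.1 with h | h | h
    · exact hlt y y' h
    · have h4 : ∃ F, F ∈ y.1.2 ∧ F ∉ y'.1.2 := by
        by_contra h5
        push Not at h5
        exact hne (Subtype.ext (Prod.ext h (Ultrafilter.coe_le_coe.1 h5).symm))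
      obtain ⟨F, h5, h6⟩ := h4
      obtain ⟨A, hA⟩ := hG2 y F h5
      obtain ⟨A', hA'⟩ := hG2 y' Fᶜ (Ultrafilter.compl_mem_iff_notMem.2 h6)
      refine ⟨A, A', disjoint_left.2 fun ξ h7 h8 => hA' h8 ?_⟩
      rw [← h]
      exact hA h7
    · obtain ⟨A, A', h4⟩ := hlt y' y h
      exact ⟨A', A, h4.symm⟩
  · obtain ⟨A, hA⟩ := hG2 y _ (hfree y (res y.1.1 ξ))
    exact ⟨A, fun h => hA h rfl⟩
  · obtain ⟨b, hb, hmin⟩ := WellFounded.has_min (wellFounded_lt (α := ι))
      {b | (res b '' S).Infinite} (exists_infinite_level h1 h2 h3 hS)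
    let t : ℕ → ι → Bool := fun j => (Set.Infinite.natEmbedding _ hb j).1
    have ht : Function.Injective t := fun j k h =>
      (Set.Infinite.natEmbedding _ hb).injective (Subtype.ext h)
    have htS : ∀ j, t j ∈ res b '' S := fun j => (Set.Infinite.natEmbedding _ hb j).2
    have hS' : res b '' S ∈ (p l).map t := by
      rw [Ultrafilter.mem_map]
      exact mem_of_superset univ_mem fun j _ => htS j
    let y : D := ⟨(b, (p l).map t), ⟨(l, t), ht, fun j => image_subset_range _ _ (htS j), rfl⟩,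
      fun b' hb' => by
        have h4 : (res b' '' S).Finite := not_infinite.1 fun h => hmin b' h hb'
        have h5 : res b' '' S ∈ ((p l).map t).map (res b') := by
          rw [Ultrafilter.mem_map]
          refine mem_of_superset hS' ?_
          rintro _ ⟨ξ, hξ, rfl⟩
          exact ⟨ξ, hξ, (res_res hb'.le ξ).symm⟩
        obtain ⟨r, -, hr⟩ := Ultrafilter.eq_pure_of_finite_mem h4 h5
        exact ⟨r, hr⟩⟩
    refine ⟨y, ?_, fun T => ?_⟩
    · have e : (p (lt y).1).map (lt y).2 = (p l).map t := hmap y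
      refine hpp _ _ (Function.invFun t ∘ (lt y).2) (Function.invFun (lt y).2 ∘ t) ?_ ?_
      · rw [← Ultrafilter.map_map, e, Ultrafilter.map_map, Function.invFun_comp ht,
          Ultrafilter.map_id]
      · rw [← Ultrafilter.map_map, ← e, Ultrafilter.map_map, Function.invFun_comp (hinj y),
          Ultrafilter.map_id]
    · have h4 : (⋂ A ∈ T, G' y A) ∈ (y.1.2 : Filter (ι → Bool)) :=
        (biInter_finset_mem T).2 fun A _ => hG1 y A
      obtain ⟨r, ⟨ξ, hξ, rfl⟩, h5⟩ := Ultrafilter.nonempty_of_mem (f := y.1.2) (inter_mem hS' h4)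
      exact ⟨ξ, hξ, fun A hA => mem_iInter₂.1 h5 A hA⟩

end Pool.Agent.Lib.MP_1fe139_gt
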